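import Pool.Agent.W336.CS.Stmts

/-!
Task CS-COMP of project CS (helper336): Frobenius complements contain no noncyclic group of order
`r ^ 2` and no nonabelian group of order `p * r`.
-/

set_option autoImplicit false

namespace Pool.Agent.W261.CS

open Pool.Agent.W336.CS
open Finset (range)

section core

variable {Q A : Type} [Group Q] [CommGroup A] (ρ : Q →* MulAut A)

lemma orb (hf : ∀ q : Q, q ≠ 1 → ∀ a, ρ q a = a → a = 1) {q : Q} (hq : q ≠ 1) {m : ℕ}
    (hm : q ^ m = 1) (a : A) : ∏ j ∈ range m, ρ (q ^ j) a = 1 := by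
  apply hf q hq
  rw [map_prod]
  have h1 : ∀ j, ρ q (ρ (q ^ j) a) = ρ (q ^ (j + 1)) a := by
    intro j
    rw [pow_succ', map_mul]
    rfl
  simp_rw [h1]
  cases m with
  | zero => rfl
  | succ m => rw [Finset.prod_range_succ, Finset.prod_range_succ', hm, pow_zero]

lemma core (hf : ∀ q : Q, q ≠ 1 → ∀ a, ρ q a = a → a = 1) {r p : ℕ} (hp : 0 < p)
    (g κ : ℕ → Q) (d : Q) (hg1 : ∀ i < r, g i ≠ 1) (hg2 : ∀ i < r, g i ^ p = 1)
    (hκ1 : ∀ j, 0 < j → j < p → κ j ≠ 1) (hκ2 : ∀ j, 0 < j → j < p → κ j ^ r = 1)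
    (h : ∀ i < r, ∀ j, 0 < j → j < p → g i ^ j = κ j ^ i * d ^ j) (a : A) : a ^ r = 1 := by
  obtain ⟨p', rfl⟩ : ∃ p', p = p' + 1 := ⟨p - 1, by omega⟩
  have h1 : ∏ i ∈ range r, ∏ j ∈ range (p' + 1), ρ (g i ^ j) a = 1 := by
    apply Finset.prod_eq_one
    intro i hi
    rw [Finset.mem_range] at hi
    exact orb ρ hf (hg1 i hi) (hg2 i hi) a
  rw [Finset.prod_comm, Finset.prod_range_succ'] at h1
  have h2 : ∏ j ∈ range p', ∏ i ∈ range r, ρ (g i ^ (j + 1)) a = 1 := by
    apply Finset.prod_eq_one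
    intro j hj
    rw [Finset.mem_range] at hj
    rw [← orb ρ hf (hκ1 (j + 1) (by omega) (by omega)) (hκ2 (j + 1) (by omega) (by omega))
      (ρ (d ^ (j + 1)) a)]
    apply Finset.prod_congr rfl
    intro i hi
    rw [Finset.mem_range] at hi
    rw [h i hi (j + 1) (by omega) (by omega), map_mul]
    rfl
  rw [h2, one_mul] at h1
  simpa using h1

lemma pow_of_prime {k : Q} {p j : ℕ} (hp : p.Prime) (hk : k ^ p = 1) (h0 : 0 < j) (hj : j < p) :
    ∃ m : ℕ, k = (k ^ j) ^ m := by
  have hcop : Nat.Coprime j p := (Nat.coprime_comm.1 (Nat.coprime_of_lt_prime h0.ne' hj hp))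
  obtain ⟨m, hm⟩ := Nat.exists_mul_mod_eq_one_of_coprime hcop hp.one_lt
  refine ⟨m, ?_⟩
  rw [← pow_mul]
  have h1 : j * m = p * (j * m / p) + 1 := by
    have := Nat.div_add_mod (j * m) p
    omega
  rw [h1, pow_add, pow_mul, hk, one_pow, one_mul, pow_one]

lemma abs_main (hf : ∀ q : Q, q ≠ 1 → ∀ a, ρ q a = a → a = 1) (k d : Q)
    (hk : (orderOf k).Prime) (hd : (orderOf d).Prime)
    (h : (d * k = k * d ∧ orderOf d = orderOf k ∧ d ∉ Subgroup.zpowers k) ∨
      (d * k ≠ k * d ∧ d * k * d⁻¹ ∈ Subgroup.zpowers k)) (a : A) : a ^ orderOf k = 1 := by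
  have hkr : k ^ orderOf k = 1 := pow_orderOf_eq_one k
  have hdp : d ^ orderOf d = 1 := pow_orderOf_eq_one d
  have hk1 : k ≠ 1 := by
    rintro rfl
    rw [orderOf_one] at hk
    exact Nat.not_prime_one hk
  have hd1 : d ≠ 1 := by
    rintro rfl
    rw [orderOf_one] at hd
    exact Nat.not_prime_one hd
  rcases h with ⟨hc, ho, hn⟩ | ⟨hc, hn⟩
  · have hcomm : Commute k d := hc.symm
    apply core ρ hf hk.pos (fun i => k ^ i * d) (fun j => k ^ j) d
    · intro i _ h1
      apply hn
      have : d = (k ^ i)⁻¹ := (inv_eq_of_mul_eq_one_right h1).symm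
      rw [this]
      exact inv_mem (pow_mem (Subgroup.mem_zpowers k) i)
    · intro i _
      rw [(hcomm.pow_left i).mul_pow, ← pow_mul, mul_comm i, pow_mul, hkr, one_pow, one_mul,
        ← ho, hdp]
    · intro j h0 hj h1
      obtain ⟨m, hm⟩ := pow_of_prime hk hkr h0 hj
      rw [h1, one_pow] at hm
      exact hk1 hm
    · intro j _ _
      rw [← pow_mul, mul_comm, pow_mul, hkr, one_pow]
    · intro i _ j _ _
      rw [(hcomm.pow_left i).mul_pow, ← pow_mul, ← pow_mul, mul_comm i]
  · -- conjugates of `k` by powers of `d` are powers of `k`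
    have hconj : ∀ j : ℕ, ∀ x ∈ Subgroup.zpowers k, d ^ j * x * (d ^ j)⁻¹ ∈ Subgroup.zpowers k := by
      have h1 : ∀ x ∈ Subgroup.zpowers k, d * x * d⁻¹ ∈ Subgroup.zpowers k := by
        intro x hx
        obtain ⟨i, rfl⟩ := Subgroup.mem_zpowers_iff.1 hx
        have : d * k ^ i * d⁻¹ = (d * k * d⁻¹) ^ i := by rw [conj_zpow]
        rw [this]
        exact zpow_mem hn i
      intro j
      induction j with
      | zero => intro x hx; simpa using hx
      | succ j ih =>
        intro x hx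
        have := h1 _ (ih x hx)
        have e : d ^ (j + 1) * x * (d ^ (j + 1))⁻¹ = d * (d ^ j * x * (d ^ j)⁻¹) * d⁻¹ := by
          rw [pow_succ']
          group
        rw [e]
        exact this
    have hzc : ∀ x ∈ Subgroup.zpowers k, ∀ y ∈ Subgroup.zpowers k, Commute x y := by
      intro x hx y hy
      obtain ⟨i, rfl⟩ := Subgroup.mem_zpowers_iff.1 hx
      obtain ⟨j, rfl⟩ := Subgroup.mem_zpowers_iff.1 hy
      exact (Commute.refl k).zpow_zpow i j
    have hzr : ∀ x ∈ Subgroup.zpowers k, x ^ orderOf k = 1 := by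
      intro x hx
      obtain ⟨i, rfl⟩ := Subgroup.mem_zpowers_iff.1 hx
      rw [← zpow_natCast, ← zpow_mul, mul_comm, zpow_mul, zpow_natCast, hkr, one_zpow]
    have hkm := Subgroup.mem_zpowers k
    have hki : k⁻¹ ∈ Subgroup.zpowers k := inv_mem hkm
    apply core ρ hf hd.pos (fun i => k ^ i * d * (k ^ i)⁻¹)
      (fun j => k * (d ^ j * k⁻¹ * (d ^ j)⁻¹)) d
    · intro i _ h1
      apply hd1
      have := mul_inv_eq_one.1 h1
      calc d = (k ^ i)⁻¹ * (k ^ i * d) := by group
        _ = 1 := by rw [this]; group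
    · intro i _
      rw [conj_pow, hdp]
      group
    · intro j h0 hj h1
      apply hc
      -- `k` commutes with `d ^ j`, hence with `d`
      have h2 : Commute k (d ^ j) := by
        have h3 : k * d ^ j * k⁻¹ * (d ^ j)⁻¹ = 1 := by
          rw [← h1]
          group
        have h4 := mul_inv_eq_one.1 h3
        have h5 := mul_inv_eq_iff_eq_mul.1 h4
        exact h5
      obtain ⟨m, hm⟩ := pow_of_prime hd hdp h0 hj
      have h3 : Commute k d := by
        rw [hm]
        exact h2.pow_right m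
      exact h3.symm
    · intro j _ _
      exact hzr _ (mul_mem hkm (hconj j _ hki))
    · intro i _ j _ _
      have hc1 : Commute k (d ^ j * k⁻¹ * (d ^ j)⁻¹) := hzc _ hkm _ (hconj j _ hki)
      rw [conj_pow, hc1.mul_pow, conj_pow]
      rw [inv_pow]
      group

end core

lemma card_fix {V : Type} [Group V] [Finite V] (K : Subgroup V) [K.Normal]
    (hf : ∀ y : V, y ∉ K → ∀ a ∈ K, y * a = a * y → a = 1) :
    Nat.Coprime (Nat.card K) K.index := by
  rw [Nat.coprime_iff_gcd_eq_one]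
  by_contra hne
  obtain ⟨p, hp, hpd⟩ := Nat.exists_prime_and_dvd hne
  have hp1 : p ∣ Nat.card K := hpd.trans (Nat.gcd_dvd_left _ _)
  have hp2 : p ∣ Nat.card (V ⧸ K) := hpd.trans (Nat.gcd_dvd_right _ _)
  haveI : Fact p.Prime := ⟨hp⟩
  obtain ⟨x, hx⟩ := exists_prime_orderOf_dvd_card' p hp2
  obtain ⟨y, rfl⟩ := QuotientGroup.mk_surjective x
  have hyK : y ∉ K := by
    intro h
    rw [(QuotientGroup.eq_one_iff y).2 h, orderOf_one] at hx
    exact hp.one_lt.ne hx
  have hypK : y ^ p ∈ K := by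
    rw [← QuotientGroup.eq_one_iff, QuotientGroup.mk_pow, ← hx]
    exact pow_orderOf_eq_one _
  have hyp : y ^ p = 1 := hf y hyK _ hypK (by rw [← pow_succ, ← pow_succ'])
  letI : MulAction (Subgroup.zpowers y) K :=
    MulAction.compHom K (((MulAut.conjNormal (H := K)) : V →* MulAut K).comp
      (Subgroup.zpowers y).subtype)
  have hsm : ∀ (g : Subgroup.zpowers y) (u : K), ((g • u : K) : V) = (g : V) * u * (g : V)⁻¹ := by
    intro g u
    exact MulAut.conjNormal_apply _ _
  have hPG : IsPGroup p (Subgroup.zpowers y) := by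
    rw [IsPGroup.iff_card]
    refine ⟨1, ?_⟩
    rw [Nat.card_zpowers, pow_one]
    exact orderOf_eq_prime hyp (by rintro rfl; exact hyK K.one_mem)
  have hmod := hPG.card_modEq_card_fixedPoints (α := K)
  have hfix : Nat.card (MulAction.fixedPoints (Subgroup.zpowers y) K) = 1 := by
    rw [Nat.card_eq_one_iff_unique]
    refine ⟨⟨?_⟩, ⟨⟨1, ?_⟩⟩⟩
    · have key : ∀ a : MulAction.fixedPoints (Subgroup.zpowers y) K, (a : K) = 1 := by
        rintro ⟨a, ha⟩
        have h1 := congrArg (fun u : K => (u : V)) (ha ⟨y, Subgroup.mem_zpowers y⟩)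
        simp only [hsm] at h1
        have h2 : (a : V) = 1 := hf y hyK a a.2 (mul_inv_eq_iff_eq_mul.1 h1)
        exact Subtype.ext h2
      intro a b
      exact Subtype.ext ((key a).trans (key b).symm)
    · intro g
      apply Subtype.ext
      rw [hsm]
      simp
  rw [hfix] at hmod
  have h1 : p ∣ 1 := (hmod.dvd_iff dvd_rfl).1 hp1
  exact hp.one_lt.ne' (Nat.dvd_one.1 h1)

theorem comp : S_frob → S_comp := by
  intro hF V _ _ E hE hEt k d hk hd hrk hrd h
  obtain ⟨K, hKn, hKE, hKE'⟩ := hF V E hE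
  have hKne : K ≠ ⊥ := by
    rintro rfl
    rw [bot_sup_eq] at hKE'
    exact hEt hKE'
  -- elements of `E` have no fixed points in `K`
  have fpf1 : ∀ x ∈ E, x ≠ 1 → ∀ u ∈ K, x * u = u * x → u = 1 := by
    intro x hx hx1 u hu hxu
    have h1 : u ∈ E := by
      apply hE u x hx hx1
      rw [← hxu, mul_assoc, mul_inv_cancel, mul_one]
      exact hx
    have h2 : u ∈ K ⊓ E := ⟨hu, h1⟩
    rw [hKE] at h2
    exact Subgroup.mem_bot.1 h2
  have hconj : ∀ x ∈ E, x ≠ 1 → ∀ v ∈ K, ∃ u ∈ K, u * x * u⁻¹ = x * v := by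
    intro x hx hx1 v hv
    have hmem : ∀ u : K, x⁻¹ * (u : V) * x * (u : V)⁻¹ ∈ K := by
      intro u
      apply K.mul_mem _ (K.inv_mem u.2)
      have := hKn.conj_mem u u.2 x⁻¹
      rwa [inv_inv] at this
    let f : K → K := fun u => ⟨x⁻¹ * (u : V) * x * (u : V)⁻¹, hmem u⟩
    have hinj : Function.Injective f := by
      intro u w huw
      have h1 : x⁻¹ * (u : V) * x * (u : V)⁻¹ = x⁻¹ * (w : V) * x * (w : V)⁻¹ :=
        congrArg (fun t : K => (t : V)) huw
      have h2 : (w : V)⁻¹ * u = 1 := by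
        apply fpf1 x hx hx1 _ (K.mul_mem (K.inv_mem w.2) u.2)
        have h3 : (u : V) * x * (u : V)⁻¹ = w * x * (w : V)⁻¹ := by
          have := congrArg (fun t => x * t) h1
          simp only [← mul_assoc, mul_inv_cancel, one_mul] at this
          exact this
        calc x * ((w : V)⁻¹ * u) = (w : V)⁻¹ * (w * x * (w : V)⁻¹) * u := by group
          _ = (w : V)⁻¹ * (u * x * (u : V)⁻¹) * u := by rw [h3]
          _ = (w : V)⁻¹ * u * x := by group
      exact Subtype.ext (inv_mul_eq_one.1 h2).symm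
    obtain ⟨u, hu⟩ := (Finite.injective_iff_surjective.1 hinj) ⟨v, hv⟩
    refine ⟨u, u.2, ?_⟩
    have h1 : x⁻¹ * (u : V) * x * (u : V)⁻¹ = v := congrArg (fun t : K => (t : V)) hu
    rw [← h1]
    group
  have fpf : ∀ y : V, y ∉ K → ∀ a ∈ K, y * a = a * y → a = 1 := by
    intro y hy a ha hya
    have h1 : y ∈ E ⊔ K := by
      rw [sup_comm, hKE']
      trivial
    obtain ⟨e, he, v, hv, rfl⟩ := Subgroup.mem_sup_of_normal_right.1 h1
    have he1 : e ≠ 1 := by
      rintro rfl
      rw [one_mul] at hy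
      exact hy hv
    obtain ⟨u, hu, hue⟩ := hconj e he he1 v hv
    rw [← hue] at hya
    have h2 : u⁻¹ * a * u = 1 := by
      apply fpf1 e he he1
      · have := hKn.conj_mem a ha u⁻¹
        rwa [inv_inv] at this
      · calc e * (u⁻¹ * a * u) = u⁻¹ * (u * e * u⁻¹ * a) * u := by group
          _ = u⁻¹ * (a * (u * e * u⁻¹)) * u := by rw [hya]
          _ = _ := by group
    calc a = u * (u⁻¹ * a * u) * u⁻¹ := by group
      _ = 1 := by rw [h2]; group
  have hcop := card_fix K fpf
  -- a Sylow subgroup of `K`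
  have hcK : Nat.card K ≠ 1 := by
    intro h1
    exact hKne (Subgroup.card_eq_one.1 h1)
  set s := (Nat.card K).minFac with hs
  haveI : Fact s.Prime := ⟨Nat.minFac_prime hcK⟩
  have hsd : s ∣ Nat.card K := Nat.minFac_dvd _
  obtain ⟨S⟩ : Nonempty (Sylow s K) := inferInstance
  set P : Subgroup V := (S : Subgroup K).map K.subtype with hP
  set N : Subgroup V := Subgroup.normalizer (P : Set V) with hN
  have hNK : N ⊔ K = ⊤ := Sylow.normalizer_sup_eq_top S
  have hPK : P ≤ K := by
    rw [hP]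
    exact Subgroup.map_subtype_le _
  -- the complement
  have hcop' : Nat.Coprime (Nat.card (K.subgroupOf N)) (K.subgroupOf N).index := by
    have h1 : Nat.card (K.subgroupOf N) ∣ Nat.card K := by
      have h2 : Nat.card ((K.subgroupOf N).map N.subtype) = Nat.card (K.subgroupOf N) :=
        Subgroup.card_map_of_injective N.subtype_injective
      rw [← h2]
      apply Subgroup.card_dvd_of_le
      rw [Subgroup.subgroupOf_map_subtype]
      exact inf_le_left
    have h2 : (K.subgroupOf N).index ∣ K.index := Subgroup.relIndex_dvd_index_of_normal K N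
    exact Nat.Coprime.coprime_dvd_left h1 (Nat.Coprime.coprime_dvd_right h2 hcop)
  obtain ⟨H, hH⟩ := Subgroup.exists_right_complement'_of_coprime hcop'
  let ψ : H →* V ⧸ K := (QuotientGroup.mk' K).comp (N.subtype.comp H.subtype)
  have hψ : ∀ h : H, ψ h = QuotientGroup.mk (((h : N) : V)) := fun h => rfl
  have hinj : Function.Injective ψ := by
    rw [injective_iff_map_eq_one]
    intro x hx
    rw [hψ, QuotientGroup.eq_one_iff] at hx
    have h1 : (x : N) ∈ K.subgroupOf N ⊓ H := ⟨hx, x.2⟩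
    rw [hH.disjoint.eq_bot] at h1
    exact Subtype.ext (Subgroup.mem_bot.1 h1)
  have hsurj : Function.Surjective ψ := by
    intro q
    obtain ⟨v, rfl⟩ := QuotientGroup.mk_surjective q
    have h1 : v ∈ N ⊔ K := by rw [hNK]; trivial
    obtain ⟨n, hn, u, hu, rfl⟩ := Subgroup.mem_sup_of_normal_right.1 h1
    obtain ⟨⟨⟨u', hu'⟩, ⟨x, hx⟩⟩, hux⟩ := hH.2 ⟨n, hn⟩
    refine ⟨⟨x, hx⟩, ?_⟩
    rw [hψ]
    have h2 : (u' : V) * (x : V) = n := congrArg (fun t : N => (t : V)) hux
    rw [← h2]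
    have h3 : ((u' : V) : V ⧸ K) = 1 := (QuotientGroup.eq_one_iff _).2 hu'
    have h4 : ((u : V) : V ⧸ K) = 1 := (QuotientGroup.eq_one_iff _).2 hu
    change ((x : V) : V ⧸ K) = (((u' : V) * (x : V) * u : V) : V ⧸ K)
    rw [QuotientGroup.mk_mul, QuotientGroup.mk_mul, h3, h4, one_mul, mul_one]
  let eq := MulEquiv.ofBijective ψ ⟨hinj, hsurj⟩
  let θ : V ⧸ K →* N := H.subtype.comp eq.symm.toMonoidHom
  have hθ : ∀ q, ((θ q : V) : V ⧸ K) = q := fun q => eq.apply_symm_apply q
  -- the abelian group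
  let A : Subgroup V := P ⊓ Subgroup.centralizer (P : Set V)
  have hAn : (A.subgroupOf N).Normal := by
    constructor
    intro a ha n
    rw [Subgroup.mem_subgroupOf] at ha ⊢
    obtain ⟨ha1, ha2⟩ := ha
    have hn := Subgroup.mem_normalizer_iff.1 n.2
    have hn' := Subgroup.mem_normalizer_iff.1 (n⁻¹).2
    refine ⟨(hn _).1 ha1, ?_⟩
    change ((a : N) : V) ∈ Subgroup.centralizer (P : Set V) at ha2
    change ((n * a * n⁻¹ : N) : V) ∈ Subgroup.centralizer (P : Set V)
    rw [Subgroup.mem_centralizer_iff] at ha2 ⊢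
    intro b hb
    have h1 : (n : V)⁻¹ * b * n ∈ P := by
      have := (hn' b).1 hb
      simpa using this
    have h2 := ha2 _ h1
    simp only [Subgroup.coe_mul, Subgroup.coe_inv]
    calc b * ((n : V) * a * (n : V)⁻¹) = n * ((n : V)⁻¹ * b * n * a) * (n : V)⁻¹ := by group
      _ = n * (a * ((n : V)⁻¹ * b * n)) * (n : V)⁻¹ := by rw [h2]
      _ = _ := by group
  letI : CommGroup (A.subgroupOf N) :=
    { (inferInstance : Group (A.subgroupOf N)) with
      mul_comm := by
        rintro ⟨a, ha⟩ ⟨b, hb⟩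
        apply Subtype.ext
        apply Subtype.ext
        exact (Subgroup.mem_centralizer_iff.1 hb.2 _ ha.1) }
  let ρ : V ⧸ K →* MulAut (A.subgroupOf N) :=
    ((MulAut.conjNormal (H := A.subgroupOf N)) : N →* MulAut (A.subgroupOf N)).comp θ
  have hρ : ∀ q (a : A.subgroupOf N), (((ρ q a : A.subgroupOf N) : N) : V) =
      (θ q : V) * ((a : N) : V) * (θ q : V)⁻¹ := by
    intro q a
    have : ((ρ q a : A.subgroupOf N) : N) = θ q * a * (θ q)⁻¹ := MulAut.conjNormal_apply _ _
    rw [this]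
    rfl
  have hf : ∀ q : V ⧸ K, q ≠ 1 → ∀ a, ρ q a = a → a = 1 := by
    intro q hq a ha
    have h1 := congrArg (fun t : A.subgroupOf N => ((t : N) : V)) ha
    simp only [hρ] at h1
    have h2 : ((a : N) : V) = 1 := by
      apply fpf (θ q : V) _ _ (hPK a.2.1) (mul_inv_eq_iff_eq_mul.1 h1)
      intro h3
      apply hq
      rw [← hθ q]
      exact (QuotientGroup.eq_one_iff _).2 h3
    exact Subtype.ext (Subtype.ext h2)
  -- the images of `k` and `d`
  have hEK : ∀ x ∈ E, ((x : V) : V ⧸ K) = 1 → x = 1 := by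
    intro x hx h1
    have h2 : x ∈ K ⊓ E := ⟨(QuotientGroup.eq_one_iff x).1 h1, hx⟩
    rw [hKE] at h2
    exact Subgroup.mem_bot.1 h2
  have hord : ∀ x ∈ E, orderOf ((x : V) : V ⧸ K) = orderOf x := by
    intro x hx
    apply Nat.dvd_antisymm
    · exact orderOf_map_dvd (QuotientGroup.mk' K) x
    · apply orderOf_dvd_of_pow_eq_one
      apply hEK _ (E.pow_mem hx _)
      rw [QuotientGroup.mk_pow]
      exact pow_orderOf_eq_one _
  have hmain : ∀ a : A.subgroupOf N, a ^ orderOf k = 1 := by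
    have := abs_main ρ hf ((k : V) : V ⧸ K) ((d : V) : V ⧸ K) (by rwa [hord k hk])
      (by rwa [hord d hd]) (by
        rw [hord k hk, hord d hd]
        rcases h with ⟨h1, h2, h3⟩ | ⟨h1, h2⟩
        · left
          refine ⟨?_, h2, ?_⟩
          · rw [← QuotientGroup.mk_mul, h1, QuotientGroup.mk_mul]
          · intro h4
            apply h3
            obtain ⟨i, hi⟩ := Subgroup.mem_zpowers_iff.1 h4
            rw [Subgroup.mem_zpowers_iff]
            refine ⟨i, ?_⟩
            have h5 : d⁻¹ * k ^ i = 1 := by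
              apply hEK _ (E.mul_mem (E.inv_mem hd) (E.zpow_mem hk i))
              rw [QuotientGroup.mk_mul, QuotientGroup.mk_zpow, hi, QuotientGroup.mk_inv]
              group
            exact (inv_mul_eq_one.1 h5).symm
        · right
          constructor
          · intro h3
            apply h1
            have h5 : (k * d)⁻¹ * (d * k) = 1 := by
              apply hEK _ (E.mul_mem (E.inv_mem (E.mul_mem hk hd)) (E.mul_mem hd hk))
              rw [QuotientGroup.mk_mul, QuotientGroup.mk_inv, QuotientGroup.mk_mul,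
                QuotientGroup.mk_mul, h3]
              group
            exact (inv_mul_eq_one.1 h5).symm
          · obtain ⟨i, hi⟩ := Subgroup.mem_zpowers_iff.1 h2
            rw [Subgroup.mem_zpowers_iff]
            refine ⟨i, ?_⟩
            rw [← QuotientGroup.mk_zpow, hi]
            rfl)
    intro a
    have h1 := this a
    rwa [hord k hk] at h1
  -- a nontrivial element of `A`
  have hSne : (S : Subgroup K) ≠ ⊥ := S.ne_bot_of_dvd_card hsd
  haveI : Nontrivial S := (Subgroup.nontrivial_iff_ne_bot _).2 hSne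
  haveI := S.isPGroup'.center_nontrivial
  obtain ⟨z, hz⟩ := exists_ne (1 : Subgroup.center S)
  have hzA : (((z : S) : K) : V) ∈ A := by
    refine ⟨⟨((z : S) : K), (z : S).2, rfl⟩, ?_⟩
    change (((z : S) : K) : V) ∈ Subgroup.centralizer (P : Set V)
    rw [Subgroup.mem_centralizer_iff]
    rintro _ ⟨b, hb, rfl⟩
    have h1 := Subgroup.mem_center_iff.1 z.2 ⟨b, hb⟩
    exact congrArg (fun t : S => ((t : K) : V)) h1
  have hPN : P ≤ N := Subgroup.le_normalizer
  have hzN : (((z : S) : K) : V) ∈ N := hPN hzA.1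
  have h1 := hmain ⟨⟨_, hzN⟩, hzA⟩
  have h2 : (((z : S) : K) : V) ^ orderOf k = 1 :=
    congrArg (fun t : A.subgroupOf N => ((t : N) : V)) h1
  have h3 : orderOf (((z : S) : K) : V) ∣ orderOf k := orderOf_dvd_of_pow_eq_one h2
  have h4 : orderOf (((z : S) : K) : V) ∣ Nat.card K := by
    rw [Subgroup.orderOf_coe]
    exact orderOf_dvd_natCard _
  have h5 : orderOf k ∣ K.index := by
    rw [← hord k hk]
    exact orderOf_dvd_natCard _
  have h6 : orderOf (((z : S) : K) : V) ∣ 1 := by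
    rw [← hcop.gcd_eq_one]
    exact Nat.dvd_gcd h4 (h3.trans h5)
  have h7 : (((z : S) : K) : V) = 1 := orderOf_eq_one_iff.1 (Nat.dvd_one.1 h6)
  apply hz
  exact Subtype.ext (Subtype.ext (Subtype.ext h7))

end Pool.Agent.W261.CS
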