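import Pool.Agent.W336.CS.Stmts

/-!
Task CS-DETOUR of project CS (helper336): infinitely many disjoint detours in groups of bounded
exponent.
-/

set_option autoImplicit false

namespace Pool.Agent.W261.CS

open Pool.Agent.W336.CS

theorem detour_conn {G : Type} [Group G] (M : Subgroup G) (g : G) (ω : Cfg G) {i : ℕ} (hi : 2 ≤ i)
    {u v : G} (hu : u ∈ M) (hv : v ∈ M) (huv : (v * g) ^ i = (u * g) ^ i)
    (h1 : ∀ j, 1 ≤ j → j ≤ i - 2 → ω ((u * g) ^ j, g) = true)
    (h2 : ∀ j, 1 ≤ j → j ≤ i - 1 → ω ((v * g) ^ j * (u * g)⁻¹, g) = true) :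
    Conn (M : Set G) ω 1 g := by
  have hM : ∀ m ∈ M, ∀ a, Conn (M : Set G) ω a (m * a) := fun m hm a =>
    Relation.EqvGen.rel _ _ (Or.inl ⟨m, hm, rfl⟩)
  have hE : ∀ a, ω (a, g) = true → Conn (M : Set G) ω a (g * a) := fun a ha =>
    Relation.EqvGen.rel _ _ (Or.inr ⟨g, ha, rfl⟩)
  set y := (u * g)⁻¹ with hy
  have hA : ∀ j, 1 ≤ j → j ≤ i → Conn (M : Set G) ω (v * g * y) ((v * g) ^ j * y) := by
    intro j hj
    induction j, hj using Nat.le_induction with
    | base => intro _; rw [pow_one]; exact Relation.EqvGen.refl _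
    | succ j hj ih =>
      intro hji
      refine Relation.EqvGen.trans _ _ _ (ih (by omega)) ?_
      refine Relation.EqvGen.trans _ _ _ (hE _ (h2 j hj (by omega))) ?_
      have := hM v hv (g * ((v * g) ^ j * y))
      have e : v * (g * ((v * g) ^ j * y)) = (v * g) ^ (j + 1) * y := by
        rw [pow_succ']
        group
      rwa [e] at this
  have hB : ∀ j, 1 ≤ j → j ≤ i - 1 → Conn (M : Set G) ω (u * g) ((u * g) ^ j) := by
    intro j hj
    induction j, hj using Nat.le_induction with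
    | base => intro _; rw [pow_one]; exact Relation.EqvGen.refl _
    | succ j hj ih =>
      intro hji
      refine Relation.EqvGen.trans _ _ _ (ih (by omega)) ?_
      refine Relation.EqvGen.trans _ _ _ (hE _ (h1 j hj (by omega))) ?_
      have := hM u hu (g * (u * g) ^ j)
      have e : u * (g * (u * g) ^ j) = (u * g) ^ (j + 1) := by
        rw [pow_succ']
        group
      rwa [e] at this
  have c1 : Conn (M : Set G) ω (g * y) 1 := by
    have := hM u hu (g * y)
    have e : u * (g * y) = 1 := by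
      rw [hy]
      group
    rwa [e] at this
  have c2 : Conn (M : Set G) ω (g * y) (v * g * y) := by
    have := hM v hv (g * y)
    rwa [← mul_assoc] at this
  have c3 := hA i (by omega) le_rfl
  have e3 : (v * g) ^ i * y = (u * g) ^ (i - 1) := by
    rw [huv, hy]
    have : i = (i - 1) + 1 := by omega
    conv_lhs => rw [this, pow_succ]
    rw [mul_inv_cancel_right]
  rw [e3] at c3
  have c4 := hB (i - 1) (by omega) le_rfl
  have c5 := hM u hu g
  exact (c1.symm.trans _ _ _ (c2.trans _ _ _ (c3.trans _ _ _ (c4.symm.trans _ _ _ c5.symm))))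

theorem detour : S_detour := by
  intro G _ n hn hexp M hM g
  classical
  have hn1 : {u : G | u ∈ M ∧ (u * g) ^ n = 1}.Infinite := by
    have : {u : G | u ∈ M ∧ (u * g) ^ n = 1} = (M : Set G) := by
      ext u
      simp [hexp]
    rw [this]
    exact hM
  have hex : ∃ i, 1 ≤ i ∧ ∃ d : G, {u : G | u ∈ M ∧ (u * g) ^ i = d}.Infinite := ⟨n, hn, 1, hn1⟩
  obtain ⟨hi1, d, hU⟩ := Nat.find_spec hex
  set i := Nat.find hex with hi
  have hfin : ∀ j, 1 ≤ j → j < i → ∀ z, {u : G | u ∈ M ∧ (u * g) ^ j = z}.Finite := by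
    intro j h1 hj z
    by_contra hc
    exact Nat.find_min hex hj ⟨h1, z, hc⟩
  have hin : i ≤ n := Nat.find_min' hex ⟨hn, 1, hn1⟩
  have hi2 : 2 ≤ i := by
    by_contra hc
    have h1 : i = 1 := by omega
    rw [h1] at hU
    apply hU
    apply Set.Subsingleton.finite
    rintro u ⟨_, hu⟩ v ⟨_, hv⟩
    rw [pow_one] at hu hv
    exact mul_right_cancel (hu.trans hv.symm)
  have hmain : ∀ F : Finset (G × G), ∃ Z : Finset (G × G), (Z.card ≤ 2 * n ∧ (∀ e ∈ Z, e.2 = g) ∧
      ∀ ω : Cfg G, (∀ e ∈ Z, ω e = true) → Conn (M : Set G) ω 1 g) ∧ Disjoint Z F := by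
    intro F
    set F1 := F.image Prod.fst with hF1
    have hb1 : (⋃ j ∈ Finset.Icc 1 (i - 2), ⋃ z ∈ F1, {u : G | u ∈ M ∧ (u * g) ^ j = z}).Finite := by
      apply Set.Finite.biUnion (Finset.finite_toSet _)
      intro j hj
      rw [Finset.mem_coe, Finset.mem_Icc] at hj
      apply Set.Finite.biUnion (Finset.finite_toSet _)
      intro z _
      exact hfin j hj.1 (by omega) z
    obtain ⟨u, ⟨huM, hud⟩, hu⟩ := (hU.sdiff hb1).nonempty
    have hb2 : (⋃ j ∈ Finset.Icc 1 (i - 1), ⋃ z ∈ F1,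
        {v : G | v ∈ M ∧ (v * g) ^ j = z * (u * g)}).Finite := by
      apply Set.Finite.biUnion (Finset.finite_toSet _)
      intro j hj
      rw [Finset.mem_coe, Finset.mem_Icc] at hj
      apply Set.Finite.biUnion (Finset.finite_toSet _)
      intro z _
      exact hfin j hj.1 (by omega) _
    obtain ⟨v, ⟨hvM, hvd⟩, hv⟩ := (hU.sdiff hb2).nonempty
    refine ⟨(Finset.Icc 1 (i - 2)).image (fun j => ((u * g) ^ j, g)) ∪
      (Finset.Icc 1 (i - 1)).image (fun j => ((v * g) ^ j * (u * g)⁻¹, g)), ⟨?_, ?_, ?_⟩, ?_⟩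
    · refine (Finset.card_union_le _ _).trans ?_
      have a1 := Finset.card_image_le (s := Finset.Icc 1 (i - 2)) (f := fun j => ((u * g) ^ j, g))
      have a2 := Finset.card_image_le (s := Finset.Icc 1 (i - 1))
        (f := fun j => ((v * g) ^ j * (u * g)⁻¹, g))
      rw [Nat.card_Icc] at a1 a2
      omega
    · intro e he
      rw [Finset.mem_union, Finset.mem_image, Finset.mem_image] at he
      rcases he with ⟨j, _, rfl⟩ | ⟨j, _, rfl⟩ <;> rfl
    · intro ω hω
      apply detour_conn M g ω hi2 huM hvM (hvd.trans hud.symm)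
      · intro j h1 h2
        apply hω
        rw [Finset.mem_union, Finset.mem_image]
        exact Or.inl ⟨j, Finset.mem_Icc.2 ⟨h1, h2⟩, rfl⟩
      · intro j h1 h2
        apply hω
        rw [Finset.mem_union, Finset.mem_image, Finset.mem_image]
        exact Or.inr ⟨j, Finset.mem_Icc.2 ⟨h1, h2⟩, rfl⟩
    · rw [Finset.disjoint_left]
      intro e he heF
      have he1 : e.1 ∈ F1 := Finset.mem_image_of_mem _ heF
      rw [Finset.mem_union, Finset.mem_image, Finset.mem_image] at he
      rcases he with ⟨j, hj, rfl⟩ | ⟨j, hj, rfl⟩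
      · apply hu
        simp only [Set.mem_iUnion, Set.mem_ofPred_eq]
        exact ⟨j, hj, _, he1, huM, rfl⟩
      · apply hv
        simp only [Set.mem_iUnion, Set.mem_ofPred_eq]
        refine ⟨j, hj, _, he1, hvM, ?_⟩
        dsimp only
        rw [inv_mul_cancel_right]
  obtain ⟨Z, hZ1, hZ2⟩ := exists_seq_of_forall_finset_exists'
    (fun Z : Finset (G × G) => Z.card ≤ 2 * n ∧ (∀ e ∈ Z, e.2 = g) ∧
      ∀ ω : Cfg G, (∀ e ∈ Z, ω e = true) → Conn (M : Set G) ω 1 g) (fun A B => Disjoint A B) (by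
      intro s _
      obtain ⟨Z, hZ, hd⟩ := hmain (s.biUnion id)
      refine ⟨Z, hZ, fun x hx => ?_⟩
      exact (Finset.disjoint_of_subset_right (Finset.subset_biUnion_of_mem id hx) hd).symm)
  refine ⟨Z, ?_, fun i => (hZ1 i).1, fun i => (hZ1 i).2.1, fun i => (hZ1 i).2.2⟩
  intro i j hij
  exact hZ2 hij

end Pool.Agent.W261.CS
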